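import Pool.Agent.D12a3a.Arrow

set_option autoImplicit false

namespace Pool.Agent.Results.MP_d12a3a_co.NearLinearExponent

/-- An ordered 3-uniform hypergraph on the vertex set `Fin n` with its natural order: a finite set
of edges, each of them a 3-element set of vertices. -/
structure OrdHypergraph (n : ℕ) where
  /-- the edges -/
  edges : Finset (Finset (Fin n))
  /-- every edge has exactly three vertices -/
  uniform : ∀ e ∈ edges, e.card = 3

namespace OrdHypergraph

variable {n : ℕ}

/-- The number of edges containing the vertex `v`. -/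
def degree (H : OrdHypergraph n) (v : Fin n) : ℕ :=
  (H.edges.filter (fun e => v ∈ e)).card

/-- The maximum degree. -/
def maxDegree (H : OrdHypergraph n) : ℕ :=
  Finset.univ.sup H.degree

/-- The vertex set can be split into `k` intervals (the fibres of a monotone map `p` to `Fin k`)
such that no edge contains two vertices from the same interval. -/
def IntervalColorable (H : OrdHypergraph n) (k : ℕ) : Prop :=
  ∃ p : Fin n → Fin k, Monotone p ∧ ∀ e ∈ H.edges, ∀ u ∈ e, ∀ v ∈ e, p u = p v → u = v

/-- The interval chromatic number. -/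
noncomputable def intervalChromaticNumber (H : OrdHypergraph n) : ℕ :=
  sInf {k | H.IntervalColorable k}

/-- Every colouring of the 3-element subsets of `Fin N` with two colours contains a monochromatic
copy of `H`: a strictly increasing map `f` from the vertices of `H` to `Fin N` such that the images
of all the edges of `H` have the same colour. -/
def Arrows (H : OrdHypergraph n) (N : ℕ) : Prop :=
  ∀ c : {e : Finset (Fin N) // e.card = 3} → Bool,
    ∃ (col : Bool) (f : Fin n ↪o Fin N), ∀ (e : Finset (Fin n)) (he : e ∈ H.edges),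
      c ⟨e.map f.toEmbedding, (Finset.card_map _).trans (H.uniform e he)⟩ = col

/-- The ordered Ramsey number. -/
noncomputable def ramseyNumber (H : OrdHypergraph n) : ℕ :=
  sInf {N | H.Arrows N}

/-- The interval chromatic number is attained. -/
lemma intervalColorable_chromatic (H : OrdHypergraph n) :
    H.IntervalColorable H.intervalChromaticNumber := by
  have h : ({k | H.IntervalColorable k} : Set ℕ).Nonempty :=
    ⟨n, id, monotone_id, fun _ _ _ _ _ _ h => h⟩
  exact Nat.sInf_mem h

lemma IntervalColorable.mono {H : OrdHypergraph n} {k l : ℕ} (h : H.IntervalColorable k)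
    (hkl : k ≤ l) : H.IntervalColorable l := by
  obtain ⟨p, hp, hpe⟩ := h
  refine ⟨fun v => Fin.castLE hkl (p v), fun u v huv => ?_, ?_⟩
  · exact Fin.castLE_le_castLE_iff _ |>.2 (hp huv)
  · intro e he u hu v hv huv
    exact hpe e he u hu v hv (Fin.castLE_injective hkl huv)

end OrdHypergraph

open Pool.Agent.D12a3a in
/-- The arrow relation with explicit parameters. -/
lemma arrows_of {n χ t s D d : ℕ} (H : OrdHypergraph n) (hd : H.maxDegree ≤ d)
    (hχ : H.intervalChromaticNumber ≤ χ)
    (hn : 0 < n) (hD : 0 < D) (hs : 2 ≤ s)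
    (ht : ∀ c : Finset (Fin t) → Bool, ∃ A : Finset (Fin t), A.card = χ ∧
      ∃ col : Bool, ∀ e ⊆ A, e.card = 3 → c e = col)
    (β : ℝ) (hβ : 0 < β) (hβ1 : β ≤ 1)
    (hcond : (n : ℝ) * (2 * ((2 * β) ^ s + 4 / (D : ℝ)))
      < ((1 : ℝ) / 2 ^ (t + 1)) ^ (s ^ t) * β ^ (2 * d)) :
    H.Arrows (t * (2 * n) ^ D) := by
  classical
  intro c
  obtain ⟨N, hN⟩ : ∃ N : ℕ, N = t * (2 * n) ^ D := ⟨_, rfl⟩
  obtain ⟨p, hp, hpe⟩ := H.intervalColorable_chromatic.mono hχ
  have hcn : ∀ v, (Cn H.edges v).card ≤ 2 * d := by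
    intro v
    refine le_trans (Cn_card H.edges H.uniform v) ?_
    have h1 : H.degree v ≤ H.maxDegree := Finset.le_sup (f := H.degree) (Finset.mem_univ v)
    have h2 : H.degree v ≤ d := h1.trans hd
    unfold OrdHypergraph.degree at h2
    exact Nat.mul_le_mul_left 2 h2
  -- transport the colouring to finite sets of natural numbers
  let c' : Finset ℕ → Bool := fun e =>
    if h : (Finset.univ.filter (fun i : Fin (t * (2 * n) ^ D) => (i : ℕ) ∈ e)).card = 3
      then c ⟨_, h⟩ else false
  obtain ⟨f, hf, hfN, col, hcol⟩ := arrow_nat H.edges p hp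
    (fun e he u hu v hv huv => hpe e he u (Finset.mem_coe.1 hu) v (Finset.mem_coe.1 hv) huv)
    H.uniform hcn hn hD hs ht β hβ hβ1 hcond c'
  let g : Fin n ↪o Fin (t * (2 * n) ^ D) :=
    OrderEmbedding.ofStrictMono (fun v => ⟨f v, hfN v⟩) (fun u v huv => hf huv)
  refine ⟨col, g, ?_⟩
  intro e he
  have h1 : (Finset.univ.filter (fun i : Fin (t * (2 * n) ^ D) => (i : ℕ) ∈ e.image f))
      = e.map g.toEmbedding := by
    ext i
    simp only [Finset.mem_filter, Finset.mem_univ, true_and, Finset.mem_image, Finset.mem_map]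
    constructor
    · rintro ⟨v, hv, hvi⟩
      exact ⟨v, hv, Fin.ext hvi⟩
    · rintro ⟨v, hv, hvi⟩
      refine ⟨v, hv, ?_⟩
      rw [← hvi]
      rfl
  have h2 : (Finset.univ.filter (fun i : Fin (t * (2 * n) ^ D) => (i : ℕ) ∈ e.image f)).card = 3 := by
    rw [h1, Finset.card_map, H.uniform e he]
  have h3 := hcol e he
  rw [← h3]
  simp only [c']
  rw [dif_pos h2]
  congr 1
  apply Subtype.ext
  exact h1.symm

open Pool.Agent.D12a3a in
/-- For all `d` and `χ` and every real `ε < 1` there is `C > 0` such that every ordered 3-uniform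
hypergraph on `n` vertices with maximum degree at most `d` and interval chromatic number at most `χ`
has ordered Ramsey number at most `2 ^ (C * n ^ (2 - ε))`. -/
theorem result : ∀ (d χ : ℕ) (ε : ℝ), ε < 1 → ∃ C : ℝ, 0 < C ∧
    ∀ (n : ℕ) (H : OrdHypergraph n), H.maxDegree ≤ d → H.intervalChromaticNumber ≤ χ →
      H.Arrows H.ramseyNumber ∧ (H.ramseyNumber : ℝ) ≤ (2 : ℝ) ^ (C * (n : ℝ) ^ (2 - ε)) := by
  intro d χ ε hε
  obtain ⟨t, ht⟩ := ramsey 3 χ
  have ht' : ∀ c : Finset (Fin t) → Bool, ∃ A : Finset (Fin t), A.card = χ ∧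
      ∃ col : Bool, ∀ e ⊆ A, e.card = 3 → c e = col := by
    intro c
    obtain ⟨A, _, hA, hc⟩ := ht (Finset.univ : Finset (Fin t)) c (by rw [Finset.card_univ, Fintype.card_fin])
    exact ⟨A, hA, hc⟩
  obtain ⟨s, hs, C, hC, hpar⟩ := params (1 - ε) (by linarith) (2 * d) t
  refine ⟨C + 1, by linarith, ?_⟩
  intro n H hd hχ
  have key : ∃ N : ℕ, H.Arrows N ∧ (N : ℝ) ≤ (2 : ℝ) ^ ((C + 1) * (n : ℝ) ^ (2 - ε)) := by
    rcases Nat.eq_zero_or_pos n with hn | hn
    · subst hn
      refine ⟨0, ?_, ?_⟩
      · intro c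
        refine ⟨true, RelEmbedding.refl _, ?_⟩
        intro e he
        exfalso
        have h3 := H.uniform e he
        have h4 : e = ∅ := Finset.eq_empty_of_isEmpty e
        rw [h4] at h3
        simp at h3
      · rw [Nat.cast_zero]
        exact (Real.rpow_pos_of_pos (by norm_num) _).le
    · obtain ⟨D, hD, β, hβ, hβ1, hcond, hN⟩ := hpar n hn
      refine ⟨t * (2 * n) ^ D, arrows_of H hd hχ hn hD hs ht' β hβ hβ1 hcond, ?_⟩
      refine le_trans hN ?_
      apply Real.rpow_le_rpow_of_exponent_le (by norm_num)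
      have h1 : (1 : ℝ) + (1 - ε) = 2 - ε := by ring
      rw [h1]
      apply mul_le_mul_of_nonneg_right (by linarith)
      positivity
  obtain ⟨N, hN, hNle⟩ := key
  have hne : ({N | H.Arrows N} : Set ℕ).Nonempty := ⟨N, hN⟩
  refine ⟨Nat.sInf_mem hne, le_trans ?_ hNle⟩
  have hle : H.ramseyNumber ≤ N := Nat.sInf_le hN
  exact_mod_cast hle

end Pool.Agent.Results.MP_d12a3a_co.NearLinearExponent
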